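import Pool.Agent.TH375.KL.Poly

/-!
# The analytic Nagao conjecture: the Dirichlet series of almost all members of a family

Let `F` be a polynomial over `ℤ` in `s, x, t_1, …, t_k`.  For an integer `s` let `X_s` be the fibration over the
space of the `t` with fibres the curves `y² = F(s, x, t)`, and `A_p(X_s)` the fibre average of the Frobenius traces
on `H¹` (for odd degree in `x`).  For almost all `s` of an interval of length `N ≥ z²` the Dirichlet polynomials
`∑_{p ≤ x} A_p(X_s) log p p^(-w)`, `x ≤ z`, differ from the corresponding mean values over the family by an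
amount that is bounded uniformly in `x ≤ z` and `w ≥ 1`.
-/

set_option autoImplicit false

namespace Pool.Agent.Results.MP_3d3918_nt.AlmostAllMembers

/-- The box `{0, …, p - 1}^n`. -/
def box (n p : ℕ) : Finset (Fin n → ℕ) := Fintype.piFinset fun _ => Finset.range p

/-- The value `F(s, u)`; the first variable of `F` is `s`. -/
noncomputable def value {n : ℕ} (F : MvPolynomial (Fin (n + 1)) ℤ) (s : ℤ) (u : Fin n → ℕ) : ℤ :=
  MvPolynomial.eval (Fin.cons s fun i => (u i : ℤ)) F

/-- The fibre average `A_p(X_s)`: minus the sum of the Jacobi symbols `(F(s, x, t) / p)` over all `(x, t)`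
modulo `p`, divided by `p^k`. -/
noncomputable def fibreAverage {k : ℕ} (F : MvPolynomial (Fin (k + 2)) ℤ) (p : ℕ) (s : ℤ) : ℝ :=
  -((∑ u ∈ box (k + 1) p, jacobiSym (value F s u) p : ℤ) : ℝ) / (p : ℝ) ^ k

/-- The mean value of `A_p(X_s)` over `s` modulo `p`. -/
noncomputable def familyAverage {k : ℕ} (F : MvPolynomial (Fin (k + 2)) ℤ) (p : ℕ) : ℝ :=
  (∑ s ∈ Finset.range p, fibreAverage F p s) / p

/-- The odd primes up to `x`. -/
def oddPrimes (x : ℕ) : Finset ℕ := ((Finset.range (x + 1)).filter Nat.Prime).filter (· ≠ 2)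

/-- The Dirichlet polynomial `∑_{p ≤ x} c_p log p p^(-w)` over the odd primes. -/
noncomputable def series (c : ℕ → ℝ) (x : ℕ) (w : ℝ) : ℝ :=
  ∑ p ∈ oddPrimes x, c p * (Real.log p * (p : ℝ) ^ (-w))

section
open Pool.Agent.TH375.KL

/-- the function with the prime `2` removed -/
noncomputable def psi {k : ℕ} (F : MvPolynomial (Fin (k + 2)) ℤ) (p : ℕ) (s : ℤ) : ℝ :=
  if p ≠ 2 then fibreAverage F p s else 0

theorem psi_per {k : ℕ} (F : MvPolynomial (Fin (k + 2)) ℤ) (p : ℕ) (s t : ℤ) (_ : p.Prime)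
    (h : (p : ℤ) ∣ s - t) : psi F p s = psi F p t := by
  unfold psi fibreAverage
  have h1 : ∀ u : Fin (k + 1) → ℕ, jacobiSym (value F s u) p = jacobiSym (value F t u) p :=
    fun u => jac_congr (cons_congr F h _)
  simp only [h1]

theorem mv_psi {k : ℕ} (F : MvPolynomial (Fin (k + 2)) ℤ) (p : ℕ) :
    mv (psi F) p = if p ≠ 2 then familyAverage F p else 0 := by
  unfold mv psi familyAverage
  split_ifs
  · rfl
  · simp

theorem series_eq {k : ℕ} (F : MvPolynomial (Fin (k + 2)) ℤ) (s : ℤ) (x : ℕ) (w : ℝ) :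
    series (fun p => fibreAverage F p s - familyAverage F p) x w =
      ∑ p ∈ Prm x, (psi F p s - mv (psi F) p) * (Real.log p * (p : ℝ) ^ (-w)) := by
  unfold series oddPrimes Prm
  rw [Finset.sum_filter (p := fun p => p ≠ 2)]
  refine Finset.sum_congr rfl fun p _ => ?_
  rw [mv_psi, psi]
  split_ifs
  · rfl
  · rw [sub_zero, zero_mul]

end

/-- **The Dirichlet series of almost all members.**

There is an absolute constant `C` such that for all families `F`, `D ≥ 0`, `M`, `N`, `z`: if for all odd primes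
`p ≤ z` the mean square of `A_p(X_s)` over `s` modulo `p` is at most `D`, then for every `K > 0`, for all but at
most `C (N + z²) / K` of the integers `s` in `(M, M + N]`, and for all `x ≤ z` and all real `w ≥ 1`,
`(∑_{p ≤ x} (A_p(X_s) - μ_p) log p p^(-w))² ≤ K D`, where `μ_p` is the mean value over the family. -/
theorem result : ∃ C : ℝ, 0 < C ∧ ∀ (k : ℕ) (F : MvPolynomial (Fin (k + 2)) ℤ) (D : ℝ), 0 ≤ D →
    ∀ (M : ℤ) (N z : ℕ),
    (∀ p : ℕ, p.Prime → p ≠ 2 → p ≤ z →
      (∑ s ∈ Finset.range p, fibreAverage F p s ^ 2) / p ≤ D) →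
    ∀ K : ℝ, 0 < K →
    ({s : ℤ | M < s ∧ s ≤ M + N ∧ ∃ x : ℕ, x ≤ z ∧ ∃ w : ℝ, 1 ≤ w ∧
      K * D < series (fun p => fibreAverage F p s - familyAverage F p) x w ^ 2}.ncard : ℝ) ≤
      C * (N + (z : ℝ) ^ 2) / K := by
  obtain ⟨C, hC, h⟩ := Pool.Agent.TH375.KL.few_series
  refine ⟨C, hC, fun k F D hD M N z hvar K hK => ?_⟩
  have h1 := h (psi F) (psi_per F) D hD M N z (fun p hp hpz => by
    unfold psi
    by_cases h2 : p ≠ 2
    · simp only [if_pos h2]
      exact hvar p hp h2 hpz
    · simp only [if_neg h2]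
      simpa using hD) K hK
  simp only [series_eq]
  exact h1

end Pool.Agent.Results.MP_3d3918_nt.AlmostAllMembers
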