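import Pool.Agent.TH958.NG.Avg
import Pool.Agent.TH958.NG.Res

/-!
# The analytic Nagao conjecture over the function fields of fibre powers

Let `a ∈ ℤ[u]`, `u = (u_t)_{t ∈ τ}`, be a nonzero polynomial and let `r ≥ 1`.  The ring

`RF r a = ℤ[u, x_1, ..., x_r, B][y_1, ..., y_r] / (y_i² = x_i³ + a(u) x_i + B)`

is the coordinate ring of the `r`-th fibre power, over the space of the parameters `(u, B)`, of the
affine family of curves `y² = x³ + a(u) x + B`.  Let `K` be its field of fractions, the function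
field of a variety over `ℚ` of dimension `e = #τ + r + 1 ≥ 2`, and let `E` be the elliptic curve
`Y² = X³ + a(u) X + B` over `K` (`EE a r`).  It is not constant, so that its `K/ℚ`-trace is `0`.

`avgA (EE a r) (NE a r) e p` is the average `𝔄_p = p^{-e} ∑_y a_p(E_y)` over the points `y` of the
open part `6(4a³ + 27B²) ≠ 0` of `Spec (RF r a)` with values in `𝔽_p`.

Every flat proper model of `E` over a smooth projective model `𝒴` of `K`, with good reduction outside
a finite set `S` of primes, has averages `A_p` with `A_p = 𝔄_p + O(p^{-1/2})`: two models of `K`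
differ in `O(p^{e-1})` points, and the traces are `O(p^{1/2})`.  The theorem is about all functions
`A` with this property.
-/

set_option autoImplicit false

namespace Pool.Agent.Results.MP_3d3918_nt.FibrePowersResidue

open Filter Topology
open Pool.Agent.TH958.FP Pool.Agent.TH958.An Pool.Agent.TH958.NG

/-- **The analytic generalized Nagao conjecture for the elliptic curves over the function fields of
fibre powers.** -/
theorem result (τ : Type) [Fintype τ] (a : MvPolynomial τ ℤ) (ha : a ≠ 0) (r : ℕ) (hr : 0 < r)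
    (K : Type) [Field K] [DecidableEq K] [Algebra (RF r a) K] [IsFractionRing (RF r a) K]
    (S : Finset Nat.Primes) (A : Nat.Primes → ℝ) (C : ℝ)
    (hA : ∀ p ∉ S,
      |A p - avgA (EE a r) (NE a r) (Fintype.card τ + r + 1) p| ≤ C / Real.sqrt (p : ℕ)) :
    Module.Free ℤ ((EE a r).map (algebraMap (RF r a) K)).toAffine.Point ∧
    Module.Finite ℤ ((EE a r).map (algebraMap (RF r a) K)).toAffine.Point ∧
    Module.finrank ℤ ((EE a r).map (algebraMap (RF r a) K)).toAffine.Point = r ∧
    ∃ G : ℂ → ℂ,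
      (∀ s : ℂ, 1 < s.re → HasSum (fun p : {p : Nat.Primes // p ∉ S} =>
        (A p.1 : ℂ) * ((Real.log ((p.1 : ℕ) : ℝ) : ℝ) : ℂ) * ((p.1 : ℕ) : ℂ) ^ (-s)) (G s)) ∧
      MeromorphicOn G {s : ℂ | 5 / 6 < s.re} ∧
      (∀ s : ℂ, 1 ≤ s.re → s ≠ 1 → AnalyticAt ℂ G s) ∧
      Tendsto (fun s : ℂ => (s - 1) * G s) (𝓝[≠] 1)
        (𝓝 (-(Module.finrank ℤ ((EE a r).map (algebraMap (RF r a) K)).toAffine.Point : ℂ))) := by
  obtain ⟨h1, h2, h3⟩ := algebraic τ a r hr K
  refine ⟨h1, h2, h3, ?_⟩
  rw [h3]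
  obtain ⟨C', hC', h4⟩ := avgA_bound τ a ha r hr
  obtain ⟨G, g1, g2, g3, g4⟩ := residue A S (-(r : ℝ)) (C + C') (by
    intro p hpS
    have h5 := hA p hpS
    have h6 := h4 p
    have h7 : A p - (-(r : ℝ)) = (A p - avgA (EE a r) (NE a r) (Fintype.card τ + r + 1) p) +
        (avgA (EE a r) (NE a r) (Fintype.card τ + r + 1) p - (-(r : ℝ))) := by ring
    have hp0 : (0 : ℝ) ≤ ((p : ℕ) : ℝ) := Nat.cast_nonneg _
    rw [h7, Real.rpow_neg hp0, ← Real.sqrt_eq_rpow, ← div_eq_mul_inv, add_div]
    exact (abs_add_le _ _).trans (add_le_add h5 h6))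
  refine ⟨G, g1, g2, g3, ?_⟩
  push_cast at g4
  exact g4

end Pool.Agent.Results.MP_3d3918_nt.FibrePowersResidue
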