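import Pool.Agent.TH129.EM.Nag3

/-!
# The generalized Nagao conjecture and logarithmic averages

`a_v` is the number `𝔄*_v(𝒳)` of a fibration over the number field `K`, `0` for `v ∈ R`; this is a
bounded family, by the theorems of Deligne.  Let `G(s) = ∑_v a_v log(q_v) q_v^{-s}` and
`M(x) = (1 / log x) ∑_{q_v ≤ x} a_v log(q_v) / q_v`.

1. `(s - 1) G(s) → ρ` as `s → 1+` if and only if `M(x) → ρ`.
2. If `G` has a meromorphic continuation to a neighbourhood of the point `1`, then the point is at most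
   a simple pole, the residue `ρ` is real, `M(x) → ρ`, and even `∑_{q_v ≤ x} a_v / q_v - ρ log log x`
   converges.
3. For real `ρ`, `A`: `∑_v a_v q_v^{-s} + ρ log (s - 1) → A` as `s → 1+` if and only if
   `∑_{q_v ≤ x} a_v / q_v - ρ log log x → A + ρ γ`.
4. If `(1 / x) ∑_{q_v ≤ x} a_v log q_v → ρ`, then `M(x) → ρ`, and so `(s - 1) G(s) → ρ`.
-/

set_option autoImplicit false

open Filter Topology NumberField IsDedekindDomain

namespace Pool.Agent.Results.MP_3d3918_nt.MertensNagao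

open Pool.Agent.TH129.EM (dirichlet logDirichlet sumUpTo)

theorem result {K : Type} [Field K] [NumberField K] (a : HeightOneSpectrum (𝓞 K) → ℝ) (C : ℝ)
    (ha : ∀ v, |a v| ≤ C) :
    (∀ ρ : ℝ, Tendsto (fun s : ℝ => (s - 1) * logDirichlet a s) (𝓝[>] 1) (𝓝 ρ) ↔
      Tendsto (fun x : ℝ => sumUpTo (fun v => a v * Real.log (Ideal.absNorm v.asIdeal : ℝ) /
        (Ideal.absNorm v.asIdeal : ℝ)) x / Real.log x) atTop (𝓝 ρ)) ∧
    (∀ Λ : ℂ → ℂ, MeromorphicAt Λ 1 →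
      (∀ᶠ ε : ℝ in 𝓝[>] 0, Λ (1 + ε) = logDirichlet a (1 + ε)) →
      ∃ ρ : ℝ, Tendsto (fun z : ℂ => (z - 1) * Λ z) (𝓝[≠] 1) (𝓝 (ρ : ℂ)) ∧
        Tendsto (fun x : ℝ => sumUpTo (fun v => a v * Real.log (Ideal.absNorm v.asIdeal : ℝ) /
          (Ideal.absNorm v.asIdeal : ℝ)) x / Real.log x) atTop (𝓝 ρ) ∧
        ∃ A : ℝ, Tendsto (fun x : ℝ => sumUpTo (fun v => a v / (Ideal.absNorm v.asIdeal : ℝ)) x -
          ρ * Real.log (Real.log x)) atTop (𝓝 A)) ∧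
    (∀ ρ A : ℝ, Tendsto (fun ε : ℝ => dirichlet a (1 + ε) + ρ * Real.log ε) (𝓝[>] 0) (𝓝 A) ↔
      Tendsto (fun x : ℝ => sumUpTo (fun v => a v / (Ideal.absNorm v.asIdeal : ℝ)) x -
        ρ * Real.log (Real.log x)) atTop (𝓝 (A + ρ * Real.eulerMascheroniConstant))) ∧
    ∀ ρ : ℝ, Tendsto (fun x : ℝ => sumUpTo (fun v => a v *
        Real.log (Ideal.absNorm v.asIdeal : ℝ)) x / x) atTop (𝓝 ρ) →
      Tendsto (fun x : ℝ => sumUpTo (fun v => a v * Real.log (Ideal.absNorm v.asIdeal : ℝ) /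
        (Ideal.absNorm v.asIdeal : ℝ)) x / Real.log x) atTop (𝓝 ρ) := by
  obtain ⟨h1, h2, h3⟩ := Pool.Agent.TH129.EM.bounded_law ha
  refine ⟨fun ρ => Pool.Agent.TH129.EM.bounded_residue_iff ha ρ, fun Λ hΛ he => ?_, h1, h3⟩
  obtain ⟨ρ, e1, e2, e3⟩ := h2 Λ hΛ he
  exact ⟨ρ, e1, e3, e2⟩

end Pool.Agent.Results.MP_3d3918_nt.MertensNagao
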