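import Pool.Agent.TH820.LG.TC2

/-!
# Residues of the Nagao averages over the intermediate fields of a Galois extension

`f : 𝒳 → 𝒴` is a fibration over a number field `K`, given over an affine open part of `𝒴` over which the
fibres are smooth, `B` is the trace of the Picard variety `P_X` of the generic fibre, and `W` is the space
`P_X(K̄(𝒴)) / τB(K̄) ⊗ ℚ` with the action of the absolute Galois group of `K`.  For a number field
`E ⊇ K` the rank of `P_X(E(𝒴)) / τB(E)` is `dim W^{Gal(K̄/E)}`, and Q1 for `f` over `E` says that the
residue at `s = 1` of the Dirichlet series `∑ (-𝔄*_w) (log q_w) q_w^{-s}` over the primes `w` of `E` is this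
rank.  For a representation `χ` of a finite quotient of `Gal(K̄/K)` the residue of the series
`∑ (-𝔄*_v) Re χ(Frob_v) (log q_v) q_v^{-s}` over the primes `v` of `K` should be
`dim (W ⊗ χ)^{Gal(K̄/K)}`.  The definitions are in `Pool.Agent.TH820.LG.ResTowerDefs`,
`Pool.Agent.TH820.LG.ResDefs`, `Pool.Agent.TH820.LG.NilTowerDefs`, `Pool.Agent.TH820.LG.NilDefs`,
`Pool.Agent.TH820.LG.TowerDefs`, `Pool.Agent.TH820.LG.ExtDefs`, `Pool.Agent.TH820.LG.Defs`,
`Pool.Agent.W353.FB.Defs`, `Pool.Agent.W353.AT.TDefs`, `Pool.Agent.W353.AT.Defs` and
`Pool.Agent.W353.TD.Defs`.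
-/

set_option autoImplicit false

namespace Pool.Agent.Results.MP_3d3918_nt.TowerResidues

open NumberField Pool.Agent.W353.FB

/-- **The residues of the Nagao averages over towers over nilpotent extensions.**  For every `s` there is
`n₀` with the following property.  Let `f` be a fibration over a number field `K`, `B` a projective variety
over `K`, `W` a part of the values `z_v = a_v(B) - 𝔄_v`, given by `N` numbers of absolute value `≤ 1`, and
`N - dim W ≤ s`.  Let `n ≥ n₀` and let `F` be a finite Galois extension of `K` whose group has a series of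
normal subgroups with factors that are quotients of `SL_m(k)` or `A_m`, `m ≥ n` (with the action of
`Gal(F/K)` through `GL_m(k)` or `S_m`), down to a nilpotent quotient `Γ` such that all primes dividing
`|Γ / Z(Γ)|` are larger than `4s²`.  Suppose that the residue of the series twisted by `χ` exists along the
real axis and is an integer, for all irreducible `χ` of `Gal(F/K)` of dimension `≠ 1`.  Then it is
`dim (W ⊗ χ)^{Gal(K̄/K)}` for all these `χ`; and for every field `E` with `K ⊆ E ⊆ F`, with the largest
subfield `E₀` abelian over `K`, the difference between `residue - rank` over `E` and `residue - rank` over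
`E₀` tends to `0`, so that Q1 for `f` over `E` and over `E₀` are equivalent. -/
theorem result (s : ℕ) : ∃ n₀ : ℕ, ∀ (K : Type) [Field K] [NumberField K] (f : Fibration K)
    (l g N : ℕ) (B : Set (MvPolynomial (Fin l) (𝓞 K))) (W : Type) [AddCommGroup W] [Module ℚ W]
    [FiniteDimensional ℚ W] (ρ : Representation ℚ Gal(AlgebraicClosure K/K) W), 1 ≤ g →
    IsPartOf (nagaoValue f B g) N ρ → N ≤ Module.finrank ℚ W + s →
    Pool.Agent.TH820.LG.NilpotentTowerResidues (nagaoValue f B g) ρ s n₀ := by
  obtain ⟨n₀, h⟩ := Pool.Agent.TH820.LG.nilTowerResidues s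
  exact ⟨n₀, fun K _ _ f _ _ N B W _ _ _ ρ hg hW hN =>
    h K N _ W ρ (nagao_uniq f B hg) hW hN⟩

end Pool.Agent.Results.MP_3d3918_nt.TowerResidues
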